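import Pool.Agent.H384R3.PhyloUpper

set_option autoImplicit false

/-!
# The minimal numbers of common `k`-partitions of trees and of caterpillars differ

For phylogenetic trees of size `7` and partitions into `4` classes some pair of trees (a caterpillar
and a tree which is not a caterpillar) has at most `35` common partitions, while every pair of
caterpillars has at least `36`.
-/

namespace Pool.Agent.Results.MP_ae7dce_co.Disproof

open Pool.Agent.H384R3

/-- `s 7 4 ≤ 35` and `36 ≤ c 7 4`; so `s n k = c n k` does not hold for all `1 ≤ k ≤ n`. -/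
theorem result : (s 7 4 ≤ 35 ∧ 36 ≤ c 7 4) ∧
    ¬ ∀ n k : ℕ, 1 ≤ n → 1 ≤ k → k ≤ n → s n k = c n k := by
  refine ⟨main, fun h => ?_⟩
  have h1 := main.1
  have h2 := main.2
  have h3 := h 7 4 (by norm_num) (by norm_num) (by norm_num)
  omega

end Pool.Agent.Results.MP_ae7dce_co.Disproof
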